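import Mathlib

namespace Pool.Agent.Results.MP_c1c042_nt.Fails

def T (d : ℕ) (a r : ℤ → ℤ) (x : ℤ) : ℤ := (a (x % d) * x - r (x % d)) / d

noncomputable def q (d : ℕ) (a r : ℤ → ℤ) (m : ℕ) (i j : ZMod m) : ℚ :=
  (((Finset.Ico (0 : ℤ) (m * d)).filter fun x : ℤ =>
    (x : ZMod m) = i ∧ ((T d a r x : ℤ) : ZMod m) = j).card : ℚ) / (m * d) / (1 / m)

def Rec (d : ℕ) (a r : ℤ → ℤ) (m : ℕ) (C : Set (ZMod m)) : Prop :=
  C.Nonempty ∧ (∀ i ∈ C, ∀ j ∈ C, Relation.ReflTransGen (fun u v => 0 < q d a r m u v) i j) ∧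
    ∀ i ∈ C, ∀ j, 0 < q d a r m i j → j ∈ C

def E (d : ℕ) (a r : ℤ → ℤ) : Set (Set ℤ) :=
  {S | ∃ m : ℕ, 2 ≤ m ∧ ∃ C, Rec d a r m C ∧ S = {x : ℤ | (x : ZMod m) ∈ C}}

lemma T_eq (x : ℤ) : T 5 (fun _ => 2) (fun i => 2 * i - 5) x = 2 * (x / 5) + 1 := by
  simp only [T]; omega

lemma q_pos (m : ℕ) (hm : 2 ≤ m) (i j : ZMod m) :
    0 < q 5 (fun _ => 2) (fun i => 2 * i - 5) m i j ↔
      ∃ x : ℤ, (x : ZMod m) = i ∧ ((2 * (x / 5) + 1 : ℤ) : ZMod m) = j := by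
  have h0 : (0 : ℚ) < m := by exact_mod_cast (show 0 < m by omega)
  rw [q, div_pos_iff_of_pos_right (by positivity), div_pos_iff_of_pos_right (by positivity),
    Nat.cast_pos, Finset.card_pos]
  simp only [T_eq]
  constructor
  · rintro ⟨x, hx⟩
    exact ⟨x, (Finset.mem_filter.1 hx).2⟩
  · rintro ⟨x, rfl, rfl⟩
    have h1 : (0 : ℤ) < m * (5 : ℕ) := by positivity
    refine ⟨x % (m * (5 : ℕ)), Finset.mem_filter.2 ⟨Finset.mem_Ico.2
      ⟨Int.emod_nonneg _ h1.ne', Int.emod_lt_of_pos _ h1⟩, ?_⟩⟩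
    rw [Int.emod_def]
    generalize x / (m * (5 : ℕ)) = t
    rw [show (x - m * (5 : ℕ) * t) / 5 = x / 5 - m * t by
      rw [show x - m * (5 : ℕ) * t = x - 5 * (m * t) by push_cast; ring]; omega]
    simp

lemma reach (m : ℕ) (hm : 2 ≤ m) (y : ℤ) (n : ℕ) : ∃ c : ℤ, ∀ x, c ≤ x → x ≤ c + n + 1 →
    Relation.TransGen (fun u v => 0 < q 5 (fun _ => 2) (fun i => 2 * i - 5) m u v)
      (x : ZMod m) ((2 * y + 1 : ℤ) : ZMod m) := by
  induction n with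
  | zero => exact ⟨5 * y, fun x h1 h2 => .single ((q_pos m hm _ _).2
      ⟨x, rfl, by rw [show x / 5 = y by omega]⟩)⟩
  | succ n ih =>
    obtain ⟨c, hc⟩ := ih
    exact ⟨5 * (c / 2), fun x h1 h2 => .head ((q_pos m hm _ _).2 ⟨x, rfl, rfl⟩)
      (hc _ (by omega) (by omega))⟩

theorem result : ∃ (d : ℕ) (a r : ℤ → ℤ), 2 ≤ d ∧
    (∀ i, 0 ≤ i → i < d → a i ≠ 0 ∧ r i ≡ i * a i [ZMOD d]) ∧
    Int.gcd (∏ i ∈ Finset.Ico (0 : ℤ) d, a i) d = 1 ∧
    Set.range (T d a r) ≠ Set.univ ∧ (E d a r).Finite := by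
  refine ⟨5, fun _ => 2, fun i => 2 * i - 5, by norm_num,
    fun i _ _ => ⟨by norm_num, by simp only [Int.ModEq]; omega⟩, by decide, fun h => ?_, ?_⟩
  · obtain ⟨x, hx⟩ := h.ge (Set.mem_univ 0)
    rw [T_eq] at hx; omega
  · refine (Set.toFinite {Set.univ, {x : ℤ | Odd x}}).subset ?_
    rintro _ ⟨m, hm, C, ⟨⟨i, hi⟩, h1, h2⟩, rfl⟩
    have : NeZero m := ⟨by omega⟩
    have h3 : ∀ y : ℤ, ((2 * y + 1 : ℤ) : ZMod m) ∈ C := by
      intro y
      obtain ⟨c, hc⟩ := reach m hm y m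
      have := ZMod.val_lt (i - c : ZMod m)
      have h4 := hc (c + (i - c : ZMod m).val) (by omega) (by omega)
      rw [show ((c + ((i - c : ZMod m).val : ℕ) : ℤ) : ZMod m) = i by simp] at h4
      generalize ((2 * y + 1 : ℤ) : ZMod m) = j at h4
      induction h4 with
      | single h => exact h2 _ hi _ h
      | tail _ h ih => exact h2 _ ih _ h
    rcases Nat.even_or_odd' m with ⟨k, rfl | rfl⟩
    · right
      ext x
      constructor
      · intro hx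
        have h5 : ∃ y : ℤ, ((2 * y + 1 : ℤ) : ZMod (2 * k)) = x := by
          rcases (h1 _ (h3 0) _ hx).cases_tail with h | ⟨u, -, h⟩
          · exact ⟨0, h.symm⟩
          · obtain ⟨z, -, hz⟩ := (q_pos _ hm _ _).1 h
            exact ⟨_, hz⟩
        obtain ⟨y, hy⟩ := h5
        obtain ⟨t, ht⟩ := (ZMod.intCast_eq_intCast_iff_dvd_sub _ _ _).1 hy
        exact ⟨y + k * t, by push_cast at ht; linarith⟩
      · rintro ⟨y, rfl⟩; exact h3 y
    · left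
      refine Set.eq_univ_of_forall fun x => ?_
      rcases Int.even_or_odd' x with ⟨y, rfl | rfl⟩
      · have := h3 (y + k)
        rwa [show 2 * (y + k) + 1 = 2 * y + (2 * k + 1 : ℕ) by push_cast; ring, Int.cast_add,
          Int.cast_natCast, ZMod.natCast_self, add_zero] at this
      · exact h3 y

end Pool.Agent.Results.MP_c1c042_nt.Fails
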